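import Pool.Agent.KS6_55.NR.Lie

/-!
# Totally minimal nilsystems: pointwise polynomial recurrence along progressions

Q1 asks for one return of an open set. We show that in every totally minimal nilsystem there is a
comeager dense set of points `x`, each of which returns to itself simultaneously for all families of
integer polynomials vanishing at `0`, along every progression `k n + j`, infinitely often and
arbitrarily closely. The recurrence of open sets is proved in the library; we add arbitrarily large
times, the second countability of the nilmanifold and a Baire category argument.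
-/

set_option autoImplicit false

open Set Topology Filter

namespace Pool.Agent.Results.MP_35c333_an.PointwiseRecurrence

/-- Let `X = G / Γ` be a nilmanifold (`G` a nilpotent Lie group, `Γ` a discrete cocompact subgroup)
and let `T x = g x` be a translation all of whose powers are minimal. Then the set of the points `x`
of `X` with the following property is comeager and dense in `X`: for all `d` and all integer
polynomials `p_1, …, p_d` vanishing at `0`, all `0 ≤ j < k`, every neighbourhood `U` of `x` and every `N`
there is an `n ≥ N` with `T ^ (p_i (k n + j)) x ∈ U` for all `i`. -/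
theorem result (E : Type) [NormedAddCommGroup E] [NormedSpace ℝ E] [FiniteDimensional ℝ E]
    (G : Type) [Group G] [TopologicalSpace G] [ChartedSpace E G]
    [LieGroup (modelWithCornersSelf ℝ E) ((⊤ : ℕ∞) : WithTop ℕ∞) G] [Group.IsNilpotent G]
    (Γ : Subgroup G) (hΓ : DiscreteTopology Γ) (_ : CompactSpace (G ⧸ Γ)) (g : G)
    (hmin : ∀ m : ℕ, 0 < m → ∀ x : G ⧸ Γ, Dense (range (fun n : ℤ => (g ^ m) ^ n • x))) :
    {x : G ⧸ Γ | ∀ (d : ℕ) (p : Fin d → Polynomial ℤ), (∀ i, (p i).eval 0 = 0) →
      ∀ k j : ℕ, j < k → ∀ U ∈ 𝓝 x, ∀ N : ℕ, ∃ n : ℕ, N ≤ n ∧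
        ∀ i, g ^ ((p i).eval ((k : ℤ) * (n : ℤ) + (j : ℤ))) • x ∈ U} ∈ residual (G ⧸ Γ) ∧
    Dense {x : G ⧸ Γ | ∀ (d : ℕ) (p : Fin d → Polynomial ℤ), (∀ i, (p i).eval 0 = 0) →
      ∀ k j : ℕ, j < k → ∀ U ∈ 𝓝 x, ∀ N : ℕ, ∃ n : ℕ, N ≤ n ∧
        ∀ i, g ^ ((p i).eval ((k : ℤ) * (n : ℤ) + (j : ℤ))) • x ∈ U} := by
  have : IsTopologicalGroup G :=
    topologicalGroup_of_lieGroup (modelWithCornersSelf ℝ E) ((⊤ : ℕ∞) : WithTop ℕ∞)
  have : ProperSpace E := FiniteDimensional.proper_real E
  have : LocallyCompactSpace G := ChartedSpace.locallyCompactSpace E G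
  have : LocallyPathConnectedSpace G := ChartedSpace.locallyPathConnectedSpace E G
  have : T1Space G := ChartedSpace.t1Space E G
  have : SecondCountableTopology (G ⧸ Γ) := Pool.Agent.KS6_55.NR.second_countable E Γ
  exact Pool.Agent.KS6_55.NR.good_residual Γ Subgroup.isClosed_of_discrete g
    fun m hm => hmin m hm _

end Pool.Agent.Results.MP_35c333_an.PointwiseRecurrence
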